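import Mathlib
import Pool.Agent.TH715.CN.Fin6
import Pool.Agent.TH841.SH.Tr

/-!
# Goldfeld's conjecture in thin families of twists: the average rank is at most one

`E : y² = x³ - x` and `Q` is any set of primes congruent to 3 modulo 8, at most `y`, with
`|Q| ≥ y ^ (19 / 20)`; nothing else is assumed about `Q`. For the subsets `T` of `Q` with `m`
elements (`m` up to a fixed power of `|Q|`) let `d(T)` be the product of the elements of `T`. Over
these `T` the average of the rank plus the dimension of the 2-torsion of the Tate-Shafarevich group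
of `E^{d(T)}` is at most `1 + o(1)`, and this number is larger than two for at most one eighteenth
of the `T` (if `m` is large).
-/

set_option autoImplicit false

namespace Pool.Agent.Results.MP_03e5d0_nt.AverageRankThinTwists

open Finset

open Pool.Agent.TH841.SH.D (Sha ShaTor rk)

/-- the quadratic twist `y² = x³ - d² x` of the curve `y² = x³ - x` -/
def Tw (d : ℤ) : WeierstrassCurve ℚ := ⟨0, 0, 0, -(d : ℚ) ^ 2, 0⟩

/-- the product of the elements of `T` -/
def prd (T : Finset ℕ) : ℤ := ∏ q ∈ T, (q : ℤ)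

/-- the rank plus the logarithm to the base two of the order of `Ш[2]` (the integral part of this
logarithm; the order of `Ш[2]` is a power of two) -/
noncomputable def sr (W : WeierstrassCurve ℚ) : ℕ := rk W + Nat.log 2 (Nat.card (ShaTor W 2))

/-- `C (m + 1) N ^ (-1 / 40)` -/
noncomputable def err (C : ℝ) (m N : ℕ) : ℝ := C * ((m : ℝ) + 1) * (N : ℝ) ^ (-(1 / 40) : ℝ)

/-- `Q` is a set of primes congruent to 3 modulo 8, at most `y`, with `|Q| ≥ y ^ (19 / 20)` -/
def IsThin (y : ℕ) (Q : Finset ℕ) : Prop :=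
  (∀ q ∈ Q, q.Prime ∧ q % 8 = 3 ∧ q ≤ y) ∧ (y : ℝ) ^ (19 / 20 : ℝ) ≤ Q.card

open Classical in
/-- **Theorem.** There are `C ≥ 1` and `D` such that the following holds for all `m` and `y` and
all sets `Q` of primes congruent to 3 modulo 8, at most `y`, with `|Q| ≥ y ^ (19 / 20)` and
`|Q| ≥ C (m + 1) ^ D`. Let `ε = C (m + 1) |Q| ^ (-1 / 40)`. Over the subsets `T` of `Q` with `m`
elements, with `d(T)` the product of the elements of `T`: the sum of
`rank E^{d(T)} + log₂ #Ш(E^{d(T)})[2]` is at most `(1 + ε) binom(|Q|, m)`, and this number is at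
least three for at most `(1 / 18 + (2 / 9) 2 ^ (-2 ⌊(m + 1) / 2⌋) + ε) binom(|Q|, m)` of the `T`. -/
theorem result : ∃ (C : ℝ) (D : ℕ), 1 ≤ C ∧ ∀ (m y : ℕ) (Q : Finset ℕ), IsThin y Q →
      C * ((m : ℝ) + 1) ^ D ≤ Q.card →
      (∑ T ∈ Q.powersetCard m, sr (Tw (prd T)) : ℝ) ≤
        (1 + err C m Q.card) * (Q.card.choose m : ℝ) ∧
      (((Q.powersetCard m).filter (fun T => 3 ≤ sr (Tw (prd T)))).card : ℝ) ≤
        (1 / 18 + 2 / 9 / 2 ^ (2 * ((m + 1) / 2)) + err C m Q.card) * (Q.card.choose m : ℝ) := by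
  obtain ⟨C, D, hC, h⟩ := Pool.Agent.TH715.CN.avgrank
  refine ⟨C, D, hC, ?_⟩
  intro m y Q hQ hmQ
  obtain ⟨h1, h2⟩ := h m y Q hQ.1 hQ.2 hmQ
  have hE : ∀ T : Finset ℕ, Tw (prd T) = Pool.Agent.TH715.CN.ET T := by
    intro T
    unfold Tw prd Pool.Agent.TH715.CN.ET Pool.Agent.W307.RT.Sh
    congr 1
    push_cast
    rfl
  have hS : ∀ W : WeierstrassCurve ℚ, Nat.card (ShaTor W 2) =
      Nat.card {x : Pool.Agent.W262.SH.Sha W // x + x = 0} := by
    intro W
    refine Nat.card_congr ?_
    unfold ShaTor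
    refine (Pool.Agent.TH841.SH.D.eSha W).toEquiv.subtypeEquiv fun x => ?_
    rw [two_nsmul]
    constructor
    · intro hx
      have h5 := congrArg (Pool.Agent.TH841.SH.D.eSha W) hx
      rw [map_add, map_zero] at h5
      exact h5
    · intro hx
      apply (Pool.Agent.TH841.SH.D.eSha W).injective
      rw [map_add, map_zero]
      exact hx
  have h3 : ∀ T : Finset ℕ, sr (Tw (prd T)) = Pool.Agent.TH715.CN.rs T := by
    intro T
    unfold sr rk Pool.Agent.TH715.CN.rs
    rw [hE T, hS]
  simp only [h3]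
  exact ⟨h1, h2⟩

end Pool.Agent.Results.MP_03e5d0_nt.AverageRankThinTwists
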