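import Mathlib
import Pool.Agent.TH779.BS.GrowG

/-!
# The growth of the ranks of quadratic twists around typical integers, and along primes

Let `E_i` (`i < g`) be elliptic curves over `ℚ` with three rational points of order two and `D_i`
nonzero polynomials with integer coefficients; let `G_1`, ..., `G_r` (`r ≥ 0`) be nonconstant
irreducible polynomials with integer coefficients, pairwise non-associated. For every `b` and all
`θ, δ, ε > 0` there is a constant `C` such that in EVERY interval `(N, N + Y]` with `N` large and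
`N ^ θ ≤ Y ≤ N`, for all but at most `ε Y / (log Y) ^ r` of the integers `n` of the interval: for
ALL `m ∈ (N, N + Y]` such that all `|G_j(m)|` are primes and ALL `t` with `|t - m| ≤ b` the twists
of the `E_i` by `D_i(t)` have rank and 2-primary Tate-Shafarevich group bounded by
`C (1 + |m - n|) ^ δ`; in particular their ranks are at most `δ log₂ (1 + |m - n|) + log₂ C`. For
`r = 0` this holds for all integers `m` of the interval, for `r = 1` and `G_1(t) = t` for all its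
primes.
-/

set_option autoImplicit false

namespace Pool.Agent.Results.MP_03e5d0_nt.GrowthAroundTypicalTwists

open Finset Polynomial Filter

open Pool.Agent.TH841.SH.D (Sha ShaTor HasDiv rk)

/-- the quadratic twist `y² = x³ + d² A x + d³ B` of `y² = x³ + A x + B` over `ℚ` by `d` -/
def Tw (A B d : ℤ) : WeierstrassCurve ℚ := ⟨0, 0, 0, ((d ^ 2 * A : ℤ) : ℚ), ((d ^ 3 * B : ℤ) : ℚ)⟩

/-- all `Ш[2 ^ k]` are finite, `2 ^ rank * #Ш[2 ^ k] ^ (1 / k) ≤ R` for all `k ≥ 1`, and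
`2 ^ (rank + q) ≤ R` if `Ш` has a subgroup `(ℚ₂ / ℤ₂) ^ q` -/
def Bounded (R : ℝ) (W : WeierstrassCurve ℚ) : Prop :=
  (∀ k : ℕ, Finite (ShaTor W (2 ^ k))) ∧
  (∀ k : ℕ, 1 ≤ k →
    (2 : ℝ) ^ rk W * (Nat.card (ShaTor W (2 ^ k)) : ℝ) ^ ((1 : ℝ) / k) ≤ R) ∧
  ∀ q : ℕ, HasDiv W q → (2 : ℝ) ^ (rk W + q) ≤ R

open Classical in
/-- **Theorem.** For all elliptic curves
`y² = x³ + A_i x + B_i = (x - e₁_i) (x - e₂_i) (x - e₃_i)` with integers `e₁_i`, `e₂_i`, `e₃_i`, all
nonzero polynomials `D_i` with integer coefficients (`i < g`), all nonconstant irreducible and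
pairwise non-associated polynomials `G_j` with integer coefficients (`j < r`), every `b` and all
`θ, δ, ε > 0` there is `C` such that for all large `N` and all `Y` with `N ^ θ ≤ Y ≤ N`, for all but
at most `ε Y / (log Y) ^ r` of the integers `n` of `(N, N + Y]`: for all integers `m` with
`N < m ≤ N + Y` such that all `|G_j(m)|` are primes, all integers `t` with `|t - m| ≤ b` and all `i`
one has `D_i(t) ≠ 0` and the twist of the `i`-th curve by `D_i(t)` is bounded by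
`C (1 + |m - n|) ^ δ`. -/
theorem result (g : ℕ) (A B e₁ e₂ e₃ : Fin g → ℤ)
    (hE : ∀ i, 4 * A i ^ 3 + 27 * B i ^ 2 ≠ 0)
    (he : ∀ i, ∀ x : ℤ, x ^ 3 + A i * x + B i = (x - e₁ i) * (x - e₂ i) * (x - e₃ i))
    (D : Fin g → ℤ[X]) (hD : ∀ i, D i ≠ 0) (r : ℕ) (G : Fin r → ℤ[X])
    (hG : ∀ j, Irreducible (G j) ∧ 0 < (G j).natDegree)
    (hG' : ∀ j l, j ≠ l → ¬ Associated (G j) (G l)) (b : ℕ)
    (θ δ ε : ℝ) (hθ : 0 < θ) (hδ : 0 < δ) (hε : 0 < ε) :
    ∃ C : ℝ, ∀ᶠ N : ℕ in atTop, ∀ Y : ℕ, (N : ℝ) ^ θ ≤ Y → Y ≤ N →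
      (((Ioc N (N + Y)).filter (fun n : ℕ => ¬ ∀ m : ℕ, N < m → m ≤ N + Y →
        (∀ j, ((G j).eval (m : ℤ)).natAbs.Prime) → ∀ t : ℤ, |t - m| ≤ b → ∀ i,
        (D i).eval t ≠ 0 ∧
          Bounded (C * (1 + |(m : ℝ) - (n : ℝ)|) ^ δ)
            (Tw (A i) (B i) ((D i).eval t)))).card : ℝ) ≤ ε * (Y / (Real.log Y) ^ r) := by
  obtain ⟨C, _, hC⟩ := Pool.Agent.TH779.BS.growthG A B e₁ e₂ e₃ hE he D hD
    (G := G) ⟨fun j => (hG j).1, fun j => (hG j).2, fun j l hjl => hG' j l hjl⟩ b θ δ ε hθ hδ hε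
  refine ⟨C, ?_⟩
  filter_upwards [hC] with N hN
  intro Y hNY hYN
  refine le_trans (Nat.cast_le.2 (card_le_card ?_)) (hN Y hNY hYN)
  intro n hn
  rw [mem_filter] at hn ⊢
  refine ⟨hn.1, fun hall => hn.2 fun m hm1 hm2 hmp t ht i => ?_⟩
  obtain ⟨h1, h2⟩ := hall m hm1 hm2 hmp t ht i
  exact ⟨h1, fun k => h2.fin k, fun _ hk => h2.wt_le hk, fun _ hq => h2.div_le le_rfl hq⟩

end Pool.Agent.Results.MP_03e5d0_nt.GrowthAroundTypicalTwists
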