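import Mathlib
import Pool.Agent.TH646.RT.WinTw
import Pool.Agent.TH942.FG
import Pool.Agent.W263.BSD.Defs

/-!
# Almost prime quadratic twists of rank at least two in every short interval

Let `E : y² = x³ + A x + B = (x - e₁)(x - e₂)(x - e₃)` be an elliptic curve over `ℚ` with full rational
2-torsion and `E_t : y² = x³ + A t² x + B t³`. For both signs, every `M` and `11/12 < θ ≤ 1`, every interval
`[X, X + X^θ]` contains at least `X^(θ - 2/3) / (log X)^13` squarefree `h d`, `h` a fixed constant of the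
curve, `d ≡ 1 mod M` with a bounded number of prime factors, all larger than a fixed power of `X`, such
that `E_{± h d}` has rank at least two. By the theorem of Gross and Zagier and of Kolyvagin (a
hypothesis of the last clause) the analytic rank is at least two as well.
-/

set_option autoImplicit false

namespace Pool.Agent.Results.MP_03e5d0_nt.RankTwoAlmostPrimes

open Pool.Agent.W263.BSD (IsLSeries)

/-- The rank of the group of rational points of `y² = x³ + a x + b`. -/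
noncomputable def rank (a b : ℤ) : ℕ :=
  Module.finrank ℤ
    (WeierstrassCurve.Affine.Point
      (WeierstrassCurve.toAffine
        ({ a₁ := 0, a₂ := 0, a₃ := 0, a₄ := (a : ℚ), a₆ := (b : ℚ) } : WeierstrassCurve ℚ)))

/-- The theorem of Gross and Zagier and of Kolyvagin (for the modular curves, so by the modularity
theorem for all elliptic curves over `ℚ`): the order of vanishing at `s = 1` of the (incomplete)
`L`-series is the rank whenever this order is at most one. -/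
def GrossZagierKolyvagin : Prop :=
  ∀ a b : ℤ, 4 * a ^ 3 + 27 * b ^ 2 ≠ 0 → ∀ F : ℂ → ℂ, IsLSeries a b F →
    analyticOrderAt F 1 ≤ 1 → analyticOrderAt F 1 = rank a b

theorem two_le_finrank {G : Type*} [AddCommGroup G] (hG : AddGroup.FG G) (P R : G)
    (h : ∀ m n : ℤ, m • P + n • R = 0 → m = 0 ∧ n = 0) : 2 ≤ Module.finrank ℤ G := by
  have hfin : Module.Finite ℤ G := Module.Finite.iff_addGroup_fg.2 hG
  have hl : LinearIndependent ℤ ![P, R] := LinearIndependent.pair_iff.2 h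
  simpa using hl.fintype_card_le_finrank

theorem rank_of_twist {A B e₁ e₂ e₃ : ℤ} (hs : e₁ + e₂ + e₃ = 0)
    (hA : A = e₁ * e₂ + e₁ * e₃ + e₂ * e₃) (hB : B = -(e₁ * e₂ * e₃))
    (h12 : e₁ ≠ e₂) (h13 : e₁ ≠ e₃) (h23 : e₂ ≠ e₃) {t : ℤ} (ht : t ≠ 0)
    (h : Pool.Agent.TH562.R2.Tw.RankAtLeastTwo (Pool.Agent.TH562.R2.Tw.twist e₁ e₂ e₃ t)) :
    4 * (A * t ^ 2) ^ 3 + 27 * (B * t ^ 3) ^ 2 ≠ 0 ∧ 2 ≤ rank (A * t ^ 2) (B * t ^ 3) := by
  have hdisc : 4 * A ^ 3 + 27 * B ^ 2 = -((e₁ - e₂) * (e₂ - e₃) * (e₃ - e₁)) ^ 2 := by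
    have h3 : e₃ = -e₁ - e₂ := by linarith
    rw [hA, hB, h3]; ring
  have hne : 4 * A ^ 3 + 27 * B ^ 2 ≠ 0 := by
    rw [hdisc, neg_ne_zero]
    exact pow_ne_zero 2 (mul_ne_zero (mul_ne_zero (sub_ne_zero.2 h12) (sub_ne_zero.2 h23))
      (sub_ne_zero.2 h13.symm))
  have hne' : 4 * (A * t ^ 2) ^ 3 + 27 * (B * t ^ 3) ^ 2 ≠ 0 := by
    have e : 4 * (A * t ^ 2) ^ 3 + 27 * (B * t ^ 3) ^ 2 = t ^ 6 * (4 * A ^ 3 + 27 * B ^ 2) := by ring
    rw [e]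
    exact mul_ne_zero (pow_ne_zero 6 ht) hne
  refine ⟨hne', ?_⟩
  have hcrv : Pool.Agent.TH562.R2.Tw.twist e₁ e₂ e₃ t =
      ({ a₁ := 0, a₂ := 0, a₃ := 0, a₄ := ((A * t ^ 2 : ℤ) : ℚ), a₆ := ((B * t ^ 3 : ℤ) : ℚ) } :
        WeierstrassCurve ℚ) := by
    unfold Pool.Agent.TH562.R2.Tw.twist
    rw [hs, hA, hB]
    congr 1
    simp
  rw [hcrv] at h
  obtain ⟨P, R, hPR⟩ := h
  have hfg := Pool.Agent.TH942.sfg (F := ℚ) (a := ((A * t ^ 2 : ℤ) : ℚ))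
    (b := ((B * t ^ 3 : ℤ) : ℚ)) (by exact_mod_cast hne')
  exact two_le_finrank hfg P R hPR

/-- **Theorem.** -/
theorem result (A B e₁ e₂ e₃ : ℤ)
    (hAB : ∀ x : ℤ, x ^ 3 + A * x + B = (x - e₁) * (x - e₂) * (x - e₃))
    (h12 : e₁ ≠ e₂) (h13 : e₁ ≠ e₃) (h23 : e₂ ≠ e₃) (h g : ℕ) (hh : Squarefree h)
    (hg : h * g ^ 2 = ((e₁ - e₂) * (e₂ - e₃) * (e₃ - e₁) *
      ((e₁ - e₂) ^ 2 + (e₁ - e₂) * (e₂ - e₃) + (e₂ - e₃) ^ 2)).natAbs)
    (M : ℕ) (hM : 0 < M) (ε : ℤ) (hε : ε = 1 ∨ ε = -1) (θ : ℝ) (hθ : 11 / 12 < θ) (hθ1 : θ ≤ 1) :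
    ∃ R : ℕ, 0 < R ∧ ∃ X₀ : ℝ, ∀ X : ℝ, X₀ ≤ X →
      X ^ (θ - 2 / 3) / Real.log X ^ 13 ≤
        (({d : ℕ | X ≤ (h * d : ℕ) ∧ ((h * d : ℕ) : ℝ) ≤ X + X ^ θ ∧ Squarefree (h * d) ∧
          d ≡ 1 [MOD M] ∧ d.primeFactors.card ≤ R ∧
          (∀ p : ℕ, p.Prime → p ∣ d → X ^ (1 / (R : ℝ)) < p) ∧
          2 ≤ rank (A * (ε * (h * d)) ^ 2) (B * (ε * (h * d)) ^ 3) ∧
          (GrossZagierKolyvagin → ∀ F : ℂ → ℂ,
            IsLSeries (A * (ε * (h * d)) ^ 2) (B * (ε * (h * d)) ^ 3) F →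
              2 ≤ analyticOrderAt F 1)}.ncard : ℕ) : ℝ) := by
  have hs : e₁ + e₂ + e₃ = 0 := by
    have h0 := hAB 0
    have h1 := hAB 1
    have h2 := hAB (-1)
    linarith
  have hB : B = -(e₁ * e₂ * e₃) := by
    have h0 := hAB 0
    linarith
  have hA : A = e₁ * e₂ + e₁ * e₃ + e₂ * e₃ := by
    have h1 := hAB 1
    have h2 := hAB (-1)
    linarith
  obtain ⟨R, hR, X₀, hX⟩ := Pool.Agent.TH646.RT.Win.main2 h12 h13 h23 hh hg hM hε hθ hθ1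
  refine ⟨R, hR, X₀, fun X hXX => (hX X hXX).trans (Nat.cast_le.2 (Set.ncard_le_ncard ?_ ?_))⟩
  · rintro d ⟨d1, d1', ⟨d2, d3, d4⟩, d5, d6⟩
    have hε0 : ε ≠ 0 := by rcases hε with rfl | rfl <;> norm_num
    have hd0 : ((h * d : ℕ) : ℤ) ≠ 0 := by exact_mod_cast d2.ne_zero
    obtain ⟨hne, hrk⟩ := rank_of_twist hs hA hB h12 h13 h23 (mul_ne_zero hε0 hd0) d4
    rw [Nat.cast_mul] at hne hrk
    refine ⟨d1, d1', d2, d3, d5, d6, hrk, fun hGZK F hF => ?_⟩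
    by_contra hcon
    push Not at hcon
    have hle : analyticOrderAt F 1 ≤ 1 := by
      obtain ⟨n, hn⟩ := ENat.ne_top_iff_exists.1 (ne_top_of_lt hcon)
      rw [← hn] at hcon ⊢
      have h3 : n < 2 := by exact_mod_cast hcon
      exact_mod_cast (by omega : n ≤ 1)
    have h1 := hGZK _ _ hne F hF hle
    rw [h1] at hcon
    have h2 : rank (A * (ε * (h * d)) ^ 2) (B * (ε * (h * d)) ^ 3) < 2 := by exact_mod_cast hcon
    omega
  · refine (Set.finite_Iic ⌊X + X ^ θ⌋₊).subset ?_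
    rintro d ⟨-, hd, -⟩
    exact (Nat.le_mul_of_pos_left d (Nat.pos_of_ne_zero hh.ne_zero)).trans (Nat.le_floor hd)

end Pool.Agent.Results.MP_03e5d0_nt.RankTwoAlmostPrimes
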